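import Mathlib
import Pool.Agent.Helper929.Pfaffian

/-!
# Odd-order off-diagonally symmetric alternating sign matrices: definitions and the plan

The six-vertex model on a triangle at the combinatorial point, with rational weights.
-/

set_option autoImplicit false

namespace Pool.Agent.L7h38.OS

/-- A state: the line `k` carries a particle if `σ k = true`. -/
abbrev St := ℕ → Bool

/-- `1 - s + s ^ 2`. -/
def Q {S : Type*} [CommRing S] (s : S) : S := 1 - s + s ^ 2

/-- The crossing of the line `i` (after its turn, parameter `s`) and the line `j` (before its turn,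
parameter `t`). -/
def Rop {S : Type*} [CommRing S] (s t : S) (i j : ℕ) (φ : St → S) : St → S := fun σ =>
  if σ i = σ j then (1 - s - t) * φ σ
  else (1 - s * t) * φ σ + (if σ j = true then 1 else Q s * Q t) * φ (fun k => σ (Equiv.swap i j k))

/-- The turn of the line `i`. -/
def Kop {S : Type*} [CommRing S] (s e : S) (i : ℕ) (φ : St → S) : St → S := fun σ =>
  (if σ i = true then e * Q s else e) * φ σ + φ (Function.update σ i (!σ i))

/-- The line `c` crosses the lines `0, …, k - 1`. -/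
def rows {S : Type*} [CommRing S] (s : ℕ → S) (c : ℕ) (φ : St → S) : ℕ → St → S
  | 0 => φ
  | k + 1 => Rop (s k) (s c) k c (rows s c φ k)

open Classical in
/-- The network of the lines `0, …, m - 1`, started from the vacuum. -/
noncomputable def psi {S : Type*} [CommRing S] (s e : ℕ → S) : ℕ → St → S
  | 0 => fun σ => if σ = (fun _ => false) then 1 else 0
  | m + 1 => Kop (s m) (e m) m (rows s m (psi s e m) m)

/-- The partition function. -/
noncomputable def Z {S : Type*} [CommRing S] (s e : ℕ → S) (m : ℕ) : S :=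
  psi s e m (fun _ => false)

/-! ### The matrices -/

/-- The coefficients of `1 / ((1 - x y) (1 - x - y))`. -/
def hh : ℕ → ℕ → ℚ
  | 0, _ => 1
  | _ + 1, 0 => 1
  | a + 1, b + 1 => (Nat.choose (a + b + 2) (a + 1) : ℚ) + hh a b

/-- The coefficients of `(y - x) / ((1 - x y) (1 - x - y))`. -/
def cc : ℕ → ℕ → ℚ
  | 0, 0 => 0
  | 0, b + 1 => hh 0 b
  | a + 1, 0 => - hh a 0
  | a + 1, b + 1 => hh (a + 1) b - hh a (b + 1)

/-- The skew-symmetric matrix with last column `(-1) ^ a`. -/
def bord (n : ℕ) : Matrix (Fin (2 * n + 2)) (Fin (2 * n + 2)) ℚ := Matrix.of fun i j =>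
  if (i : ℕ) < 2 * n + 1 then
    (if (j : ℕ) < 2 * n + 1 then cc i j else (-1) ^ (i : ℕ))
  else (if (j : ℕ) < 2 * n + 1 then - (-1) ^ (j : ℕ) else 0)

/-- `k + l + 1` choose `2 k - l`. -/
def Mq (k l : ℕ) : ℚ := if l ≤ 2 * k then (Nat.choose (k + l + 1) (2 * k - l) : ℚ) else 0

/-- The matrix of binomial coefficients with last column `2 ^ (k - 1) (3 k + 2)`. -/
def ME (n : ℕ) : Matrix (Fin (n + 1)) (Fin (n + 1)) ℚ := Matrix.of fun i j =>
  if (j : ℕ) < n then Mq i j else 2 ^ (i : ℕ) * (3 * (i : ℚ) + 2) / 2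

/-- The product formula. -/
def Fq (n : ℕ) : ℚ := (2 : ℚ) ^ n / 2 * ((3 * n + 2).factorial : ℚ) / ((2 * n + 1).factorial : ℚ) *
  ∏ i ∈ Finset.Icc 1 n, (((6 * i - 2).factorial : ℚ) / ((2 * n + 2 * i + 1).factorial : ℚ))

/-! ### The parts -/

/-- Combinatorial part: the partition function at `s = 0` over the dual numbers counts. -/
def S_CNT : Prop := ∀ n : ℕ,
  (Z (fun _ => (0 : DualNumber ℚ)) (fun _ => DualNumber.eps) (2 * n + 1)).snd =
    ((Nat.card {A : Matrix (Fin (2 * n + 1)) (Fin (2 * n + 1)) ℤ //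
          (∀ i j, A i j = -1 ∨ A i j = 0 ∨ A i j = 1) ∧
          (∀ i k, (∑ j ∈ Finset.Iic k, A i j) = 0 ∨ (∑ j ∈ Finset.Iic k, A i j) = 1) ∧
          (∀ i, (∑ j, A i j) = 1) ∧
          (∀ j k, (∑ i ∈ Finset.Iic k, A i j) = 0 ∨ (∑ i ∈ Finset.Iic k, A i j) = 1) ∧
          (∀ j, (∑ i, A i j) = 1) ∧
          (∀ i j, A i j = A j i) ∧
          (∃ d : Fin (2 * n + 1), ∀ i, i ≠ d → A i i = 0)} : ℕ) : ℚ)

/-- Evaluation of the determinant of binomial coefficients. -/
def S_LU : Prop := ∀ n : ℕ, (ME n).det = Fq n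

/-- Reduction of the skew-symmetric determinant. -/
def S_RED : Prop := ∀ n : ℕ, (bord n).det = (ME n).det ^ 2

/-- The determinantal formula for the partition function. -/
def S_PF : Prop := ∀ n : ℕ,
  (Z (fun _ => (0 : DualNumber ℚ)) (fun _ => DualNumber.eps) (2 * n + 1)).snd ^ 2 = (bord n).det

end Pool.Agent.L7h38.OS
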